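import Pool.Agent.V1173.Ext.Par
import Pool.Agent.V1173.Ext.Flow2

/-!
# The bounded support point of the maps with `A`-parametric representation is not extreme

For every `λ ∈ [1, 2)`, `A = diag (λ, 1)`, the support point
`F(z) = (z₁ + a₀ / (2 - λ) z₂², z₂)` of `S_A^0(𝔹²)` is not an extreme point: with a certain `κ > 0`
the maps `(z₁ + a₀ / (2 - λ) z₂² ± ε (z₁ - κ z₂²)³, z₂)` belong to `S_A^0(𝔹²)` for small `ε`, and
`F` is the midpoint of these two maps.
-/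

set_option autoImplicit false

open Complex Set Filter Topology Metric MeasureTheory

namespace Pool.Agent.Results.MP_2eb075_an.NotExtreme

/-- The space `ℂ²` with the Euclidean norm. -/
abbrev C2 := EuclideanSpace ℂ (Fin 2)

/-- The class `𝒩_A` for `A = diag (lam, 1)`: holomorphic `h` on the ball with `h(0) = 0`,
`Dh(0) = A` and `Re ⟨h(z), z⟩ > 0` for `z ≠ 0`. -/
def NA (lam : ℝ) (h : C2 → C2) : Prop :=
  DifferentiableOn ℂ h (ball 0 1) ∧ h 0 = 0 ∧
    (∀ w : C2, fderiv ℂ h 0 w = !₂[(lam : ℂ) * w 0, w 1]) ∧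
    ∀ z ∈ ball (0 : C2) 1, z ≠ 0 → 0 < (inner ℂ z (h z)).re

/-- `e^(tA) w` for `A = diag (lam, 1)`. -/
noncomputable def expA (lam t : ℝ) (w : C2) : C2 :=
  !₂[((Real.exp (lam * t) : ℝ) : ℂ) * w 0, ((Real.exp t : ℝ) : ℂ) * w 1]

/-- Normalized holomorphic maps of the ball. -/
def Normalized (f : C2 → C2) : Prop :=
  DifferentiableOn ℂ f (ball 0 1) ∧ f 0 = 0 ∧ fderiv ℂ f 0 = ContinuousLinearMap.id ℂ C2

/-- The set `S_A^0(𝔹²)` of the maps with `A`-parametric representation, `A = diag (lam, 1)`: for some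
Herglotz vector field `h` and the solution `v` of `∂v/∂t = -h(v, t)` for almost every `t`,
`v(z, 0) = z` (in integrated form), `f(z) = lim e^(tA) v(z, t)` locally uniformly in the ball. -/
def ParamRep (lam : ℝ) : Set (C2 → C2) :=
  {f | Normalized f ∧ ∃ h : ℝ → C2 → C2, ∃ v : ℝ → C2 → C2,
    (∀ᵐ t ∂(volume.restrict (Ici (0 : ℝ))), NA lam (h t)) ∧
    (∀ z ∈ ball (0 : C2) 1, Measurable fun t : Ici (0 : ℝ) => h t z) ∧
    (∀ z ∈ ball (0 : C2) 1, ∀ t : ℝ, 0 ≤ t → v t z ∈ ball (0 : C2) 1 ∧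
      IntervalIntegrable (fun s => h s (v s z)) volume 0 t ∧
      v t z = z - ∫ s in (0 : ℝ)..t, h s (v s z)) ∧
    TendstoLocallyUniformlyOn (fun t z => expA lam t (v t z)) f atTop (ball 0 1)}

/-- `f` is not a proper convex combination, on the ball, of members of `S` different from `f`. -/
def IsExtreme (S : Set (C2 → C2)) (f : C2 → C2) : Prop :=
  ∀ g ∈ S, ∀ k ∈ S, ∀ t : ℝ, 0 < t → t < 1 →
    (∀ z ∈ ball (0 : C2) 1, f z = (t : ℂ) • g z + ((1 - t : ℝ) : ℂ) • k z) →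
    ∀ z ∈ ball (0 : C2) 1, g z = f z ∧ k z = f z

/-- The map `F(z) = (z₁ + a / (2 - lam) z₂², z₂)`. -/
noncomputable def F (lam a : ℝ) (z : C2) : C2 :=
  !₂[z 0 + ((a / (2 - lam) : ℝ) : ℂ) * z 1 ^ 2, z 1]

/-- The map `(z₁ + a / (2 - lam) z₂² + ε (z₁ - κ z₂²)³, z₂)`. -/
noncomputable def G (lam a κ ε : ℝ) (z : C2) : C2 :=
  !₂[z 0 + ((a / (2 - lam) : ℝ) : ℂ) * z 1 ^ 2 + (ε : ℂ) * (z 0 - (κ : ℂ) * z 1 ^ 2) ^ 3, z 1]

section proof

open Pool.Agent.V1173.Ext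

theorem ball_iff (z : C2) : z ∈ ball (0 : C2) 1 ↔ ‖z 0‖ ^ 2 + ‖z 1‖ ^ 2 < 1 := by
  have h1 : ‖z‖ ^ 2 = ‖z 0‖ ^ 2 + ‖z 1‖ ^ 2 := by
    rw [EuclideanSpace.norm_sq_eq, Fin.sum_univ_two]
  rw [mem_ball_zero_iff, ← h1]
  constructor
  · intro h
    nlinarith [norm_nonneg z]
  · intro h
    nlinarith [norm_nonneg z]

theorem p0_hasFDerivAt (z : C2) : HasFDerivAt (fun z : C2 => z 0)
    (EuclideanSpace.proj 0 : C2 →L[ℂ] ℂ) z :=
  (EuclideanSpace.proj 0 : C2 →L[ℂ] ℂ).hasFDerivAt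

theorem p1_hasFDerivAt (z : C2) : HasFDerivAt (fun z : C2 => z 1)
    (EuclideanSpace.proj 1 : C2 →L[ℂ] ℂ) z :=
  (EuclideanSpace.proj 1 : C2 →L[ℂ] ℂ).hasFDerivAt

theorem p0_diff : Differentiable ℂ (fun z : C2 => z 0) := fun z => (p0_hasFDerivAt z).differentiableAt

theorem p1_diff : Differentiable ℂ (fun z : C2 => z 1) := fun z => (p1_hasFDerivAt z).differentiableAt

/-- a function of order two at the origin -/
theorem sq_fderiv {r s : C2 → ℂ} (hr : DifferentiableAt ℂ r 0) (hs : DifferentiableAt ℂ s 0)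
    (hr0 : r 0 = 0) (hs0 : s 0 = 0) : HasFDerivAt (fun z => r z * s z) (0 : C2 →L[ℂ] ℂ) 0 := by
  have h := hr.hasFDerivAt.mul hs.hasFDerivAt
  have e : r 0 • fderiv ℂ s 0 + s 0 • fderiv ℂ r 0 = 0 := by
    rw [hr0, hs0]
    ext w
    simp
  rw [e] at h
  exact h

theorem u_diff (κ : ℝ) : Differentiable ℂ (fun z : C2 => z 0 - (κ : ℂ) * z 1 ^ 2) :=
  p0_diff.sub ((p1_diff.pow 2).const_mul _)

theorem G_diff (lam a κ ε : ℝ) : Differentiable ℂ (G lam a κ ε) := by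
  rw [differentiable_euclidean]
  intro i
  fin_cases i
  · exact (p0_diff.add ((p1_diff.pow 2).const_mul _)).add (((u_diff κ).pow 3).const_mul _)
  · exact p1_diff

theorem normalized (lam a κ ε : ℝ) : Normalized (G lam a κ ε) := by
  refine ⟨(G_diff lam a κ ε).differentiableOn, ?_, ?_⟩
  · ext i
    fin_cases i
    · simp [G]
    · simp [G]
  · have h1 : HasFDerivAt (fun z : C2 => ((a / (2 - lam) : ℝ) : ℂ) * z 1 ^ 2)
        (0 : C2 →L[ℂ] ℂ) 0 := by
      have h2 := sq_fderiv (r := fun z => ((a / (2 - lam) : ℝ) : ℂ) * z 1) (s := fun z => z 1)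
        ((p1_diff.const_mul _) 0) (p1_diff 0) (by simp) (by simp)
      refine h2.congr_of_eventuallyEq (Eventually.of_forall fun z => ?_)
      simp only
      ring
    have h3 : HasFDerivAt (fun z : C2 => (ε : ℂ) * (z 0 - (κ : ℂ) * z 1 ^ 2) ^ 3)
        (0 : C2 →L[ℂ] ℂ) 0 := by
      have h2 := sq_fderiv (r := fun z => (ε : ℂ) * (z 0 - (κ : ℂ) * z 1 ^ 2) ^ 2)
        (s := fun z => z 0 - (κ : ℂ) * z 1 ^ 2)
        ((((u_diff κ).pow 2).const_mul _) 0) (u_diff κ 0) (by simp) (by simp)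
      refine h2.congr_of_eventuallyEq (Eventually.of_forall fun z => ?_)
      simp only
      ring
    have h4 := ((p0_hasFDerivAt 0).add h1).add h3
    rw [add_zero, add_zero] at h4
    have h5 : HasFDerivAt (G lam a κ ε) (ContinuousLinearMap.id ℂ C2) 0 := by
      rw [← hasFDerivWithinAt_univ, hasFDerivWithinAt_euclidean]
      intro i
      rw [hasFDerivWithinAt_univ]
      fin_cases i
      · exact h4
      · exact p1_hasFDerivAt 0
    exact h5.fderiv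

/-- the vector field -/
noncomputable def hh (lam a κ d ε : ℝ) (z : C2) : C2 := !₂[H1 lam a κ d ε (z 0) (z 1), z 1]

variable {x lam a κ d : ℝ} (P : Par x lam a κ d)
include P

theorem den_ne {ε : ℝ} (hε : |ε| ≤ 1 / 1000) {z : C2} (hz : z ∈ ball (0 : C2) 1) :
    (1 + 3 * (ε : ℂ) * (z 0 - (κ : ℂ) * z 1 ^ 2) ^ 2) ≠ 0 := by
  rw [ball_iff] at hz
  have h1 := P.u_le hz.le
  have h2 := pd_ne hε (u := z 0 - (κ : ℂ) * z 1 ^ 2) (by linarith)
  intro h0
  rw [h0, norm_zero] at h2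
  linarith

theorem frac_diff {ε : ℝ} (hε : |ε| ≤ 1 / 1000) : DifferentiableOn ℂ
    (fun z : C2 => (ε : ℂ) * (z 0 - (κ : ℂ) * z 1 ^ 2) ^ 2 /
      (1 + 3 * (ε : ℂ) * (z 0 - (κ : ℂ) * z 1 ^ 2) ^ 2)) (ball 0 1) := by
  have h1 : DifferentiableOn ℂ (fun z : C2 => (ε : ℂ) * (z 0 - (κ : ℂ) * z 1 ^ 2) ^ 2)
      (ball 0 1) := (((u_diff κ).pow 2).const_mul _).differentiableOn
  have h2 : DifferentiableOn ℂ (fun z : C2 => 1 + 3 * (ε : ℂ) * (z 0 - (κ : ℂ) * z 1 ^ 2) ^ 2)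
      (ball 0 1) := ((((u_diff κ).pow 2).const_mul _).const_add _).differentiableOn
  have h3 := h1.mul (h2.inv fun z hz => den_ne P hε hz)
  refine h3.congr fun z _ => ?_
  rw [div_eq_mul_inv]
  rfl

theorem hh_diff {ε : ℝ} (hε : |ε| ≤ 1 / 1000) : DifferentiableOn ℂ (hh lam a κ d ε) (ball 0 1) := by
  rw [differentiableOn_euclidean]
  intro i
  fin_cases i
  · have h1 : DifferentiableOn ℂ (fun z : C2 => (lam : ℂ) * z 0 - (a : ℂ) * z 1 ^ 2) (ball 0 1) :=
      ((p0_diff.const_mul _).sub ((p1_diff.pow 2).const_mul _)).differentiableOn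
    have h2 : DifferentiableOn ℂ (fun z : C2 => 3 * (d : ℂ) * z 1 ^ 2 -
        2 * (lam : ℂ) * (z 0 - (κ : ℂ) * z 1 ^ 2)) (ball 0 1) :=
      (((p1_diff.pow 2).const_mul _).sub ((u_diff κ).const_mul _)).differentiableOn
    exact h1.add ((frac_diff P hε).mul h2)
  · exact p1_diff.differentiableOn

theorem hh_NA {ε : ℝ} (hε : |ε| ≤ 1 / 1000) : NA lam (hh lam a κ d ε) := by
  refine ⟨hh_diff P hε, ?_, ?_, ?_⟩
  · ext i
    fin_cases i
    · simp [hh, H1]
    · simp [hh]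
  · have h1 : HasFDerivAt (fun z : C2 => (lam : ℂ) * z 0)
        ((lam : ℂ) • (EuclideanSpace.proj 0 : C2 →L[ℂ] ℂ)) 0 :=
      (p0_hasFDerivAt 0).const_mul _
    have h2 : HasFDerivAt (fun z : C2 => (a : ℂ) * z 1 ^ 2) (0 : C2 →L[ℂ] ℂ) 0 := by
      have h2 := sq_fderiv (r := fun z => (a : ℂ) * z 1) (s := fun z => z 1)
        ((p1_diff.const_mul _) 0) (p1_diff 0) (by simp) (by simp)
      refine h2.congr_of_eventuallyEq (Eventually.of_forall fun z => ?_)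
      simp only
      ring
    have hnhds : ball (0 : C2) 1 ∈ 𝓝 (0 : C2) := ball_mem_nhds _ one_pos
    have h3 : HasFDerivAt (fun z : C2 => (ε : ℂ) * (z 0 - (κ : ℂ) * z 1 ^ 2) ^ 2 /
        (1 + 3 * (ε : ℂ) * (z 0 - (κ : ℂ) * z 1 ^ 2) ^ 2) * (3 * (d : ℂ) * z 1 ^ 2 -
        2 * (lam : ℂ) * (z 0 - (κ : ℂ) * z 1 ^ 2))) (0 : C2 →L[ℂ] ℂ) 0 := by
      apply sq_fderiv (r := fun z => (ε : ℂ) * (z 0 - (κ : ℂ) * z 1 ^ 2) ^ 2 /
        (1 + 3 * (ε : ℂ) * (z 0 - (κ : ℂ) * z 1 ^ 2) ^ 2)) (s := fun z => 3 * (d : ℂ) * z 1 ^ 2 -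
        2 * (lam : ℂ) * (z 0 - (κ : ℂ) * z 1 ^ 2))
      · exact (frac_diff P hε).differentiableAt hnhds
      · exact (((p1_diff.pow 2).const_mul _).sub ((u_diff κ).const_mul _)) 0
      · simp
      · simp
    have h4 := (h1.sub h2).add h3
    rw [sub_zero, add_zero] at h4
    intro w
    have h5 := (hh_diff P hε).differentiableAt hnhds
    have h6 : ∀ i, fderiv ℂ (hh lam a κ d ε) 0 w i =
        fderiv ℂ (fun z => hh lam a κ d ε z i) 0 w := by
      intro i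
      have h7 : HasFDerivAt (fun z => hh lam a κ d ε z i)
          ((EuclideanSpace.proj i : C2 →L[ℂ] ℂ).comp
            (fderiv ℂ (hh lam a κ d ε) 0)) 0 :=
        (EuclideanSpace.proj i : C2 →L[ℂ] ℂ).hasFDerivAt.comp 0 h5.hasFDerivAt
      rw [h7.fderiv]
      rfl
    ext i
    rw [h6 i]
    fin_cases i
    · have h8 : HasFDerivAt (fun z => hh lam a κ d ε z 0)
          ((lam : ℂ) • (EuclideanSpace.proj 0 : C2 →L[ℂ] ℂ)) 0 := h4
      have h9 := h8.fderiv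
      change fderiv ℂ (fun z => hh lam a κ d ε z 0) 0 w = _
      rw [h9]
      rfl
    · have h8 : HasFDerivAt (fun z => hh lam a κ d ε z 1)
          (EuclideanSpace.proj 1 : C2 →L[ℂ] ℂ) 0 := p1_hasFDerivAt 0
      change fderiv ℂ (fun z => hh lam a κ d ε z 1) 0 w = _
      rw [h8.fderiv]
      rfl
  · intro z hz hz0
    rw [ball_iff] at hz
    have h1 : (inner ℂ z (hh lam a κ d ε z)).re =
        (starRingEnd ℂ (z 0) * H1 lam a κ d ε (z 0) (z 1)).re + ‖z 1‖ ^ 2 := by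
      rw [PiLp.inner_apply, Fin.sum_univ_two, Complex.add_re]
      have e1 : inner ℂ (z 0) (hh lam a κ d ε z 0) =
          starRingEnd ℂ (z 0) * H1 lam a κ d ε (z 0) (z 1) := by
        rw [RCLike.inner_apply, mul_comm]
        rfl
      have e2 : inner ℂ (z 1) (hh lam a κ d ε z 1) = (‖z 1‖ ^ 2 : ℝ) := by
        rw [RCLike.inner_apply]
        change z 1 * starRingEnd ℂ (z 1) = _
        rw [Complex.mul_conj, Complex.normSq_eq_norm_sq]
      rw [e1, e2, Complex.ofReal_re]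
    rw [h1]
    apply P.pos_form hε hz
    by_contra hcon
    push Not at hcon
    apply hz0
    ext i
    fin_cases i
    · exact hcon.1
    · exact hcon.2

/-- the flow -/
noncomputable def vv (lam c ε κ : ℝ) (t : ℝ) (z : C2) : C2 :=
  !₂[V1 lam c ε κ (z 0) (z 1) t, V2 (z 1) t]

theorem vv_ball {ε : ℝ} (hε : |ε| ≤ 1 / 1000) {z : C2} (hz : z ∈ ball (0 : C2) 1) {t : ℝ}
    (ht : 0 ≤ t) : vv lam (d / (2 - lam)) ε κ t z ∈ ball (0 : C2) 1 := by
  rw [ball_iff] at hz ⊢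
  have h := P.flow_ball hε hz ht
  change ‖V1 lam (d / (2 - lam)) ε κ (z 0) (z 1) t‖ ^ 2 + ‖V2 (z 1) t‖ ^ 2 < 1
  linarith

theorem vv_hasDerivAt {ε : ℝ} (hε : |ε| ≤ 1 / 1000) {z : C2} (hz : z ∈ ball (0 : C2) 1) {t : ℝ}
    (ht : 0 ≤ t) : HasDerivAt (fun t => vv lam (d / (2 - lam)) ε κ t z)
      (-(hh lam a κ d ε (vv lam (d / (2 - lam)) ε κ t z))) t := by
  rw [ball_iff] at hz
  have h1 := P.V1_hasDerivAt hε hz.le ht
  have h2 := V2_hasDerivAt (z 1) t
  have h3 := (h1.smul_const (!₂[(1 : ℂ), 0] : C2)).add (h2.smul_const (!₂[(0 : ℂ), 1] : C2))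
  have e1 : (fun t => vv lam (d / (2 - lam)) ε κ t z) =
      ((fun t => V1 lam (d / (2 - lam)) ε κ (z 0) (z 1) t • (!₂[(1 : ℂ), 0] : C2)) +
        fun t => V2 (z 1) t • (!₂[(0 : ℂ), 1] : C2)) := by
    funext t
    ext i
    fin_cases i
    · simp [vv]
    · simp [vv]
  rw [e1]
  refine h3.congr_deriv ?_
  ext i
  fin_cases i
  · simp [vv, hh]
  · simp [vv, hh]

theorem mem_paramRep {ε : ℝ} (hε : |ε| ≤ 1 / 1000) : G lam a κ ε ∈ ParamRep lam := by
  refine ⟨normalized lam a κ ε, fun _ => hh lam a κ d ε, vv lam (d / (2 - lam)) ε κ,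
    Eventually.of_forall fun _ => hh_NA P hε, fun z _ => measurable_const, ?_, ?_⟩
  · intro z hz t ht
    have hd : ∀ s ∈ uIcc 0 t, HasDerivAt (fun t => vv lam (d / (2 - lam)) ε κ t z)
        (-(hh lam a κ d ε (vv lam (d / (2 - lam)) ε κ s z))) s := by
      intro s hs
      rw [uIcc_of_le ht] at hs
      exact vv_hasDerivAt P hε hz hs.1
    have hc : ContinuousOn (fun s => hh lam a κ d ε (vv lam (d / (2 - lam)) ε κ s z))
        (uIcc 0 t) := by
      apply (hh_diff P hε).continuousOn.comp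
      · intro s hs
        exact (hd s hs).continuousAt.continuousWithinAt
      · intro s hs
        rw [uIcc_of_le ht] at hs
        exact vv_ball P hε hz hs.1
    have hi := hc.intervalIntegrable (μ := volume)
    refine ⟨vv_ball P hε hz ht, hi, ?_⟩
    have h1 := intervalIntegral.integral_eq_sub_of_hasDerivAt hd hi.neg
    rw [intervalIntegral.integral_neg] at h1
    have h0 : vv lam (d / (2 - lam)) ε κ 0 z = z := by
      rw [ball_iff] at hz
      ext i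
      fin_cases i
      · exact P.V1_zero hε hz.le
      · exact V2_zero (z 1)
    rw [h0] at h1
    have h2 := congrArg Neg.neg h1
    rw [neg_neg, neg_sub] at h2
    rw [h2]
    abel
  · apply TendstoUniformlyOn.tendstoLocallyUniformlyOn
    rw [Metric.tendstoUniformlyOn_iff]
    intro δ hδ
    have h2 : 0 < 2 - lam := by have := P.lt_two; linarith
    obtain ⟨K, hK⟩ : ∃ K, K = d / (2 - lam) + κ + 8 * (3 + 2 * (d / (2 - lam))) ^ 3 := ⟨_, rfl⟩
    have hlim : Tendsto (fun t : ℝ => K * Real.exp (-((2 - lam) * t))) atTop (𝓝 0) := by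
      have h3 : Tendsto (fun t : ℝ => (2 - lam) * t) atTop atTop :=
        tendsto_id.const_mul_atTop h2
      have h4 := (Real.tendsto_exp_neg_atTop_nhds_zero.comp h3).const_mul K
      rw [mul_zero] at h4
      exact h4
    filter_upwards [hlim.eventually_lt_const hδ, eventually_ge_atTop 0] with t ht ht0 z hz
    rw [ball_iff] at hz
    have h5 := P.flow_lim hε hz.le ht0
    rw [← hK] at h5
    refine lt_of_le_of_lt ?_ ht
    refine le_trans (le_of_eq ?_) h5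
    rw [dist_comm, dist_eq_norm]
    have e1 : expA lam t (vv lam (d / (2 - lam)) ε κ t z) - G lam a κ ε z =
        ((Real.exp (lam * t) : ℝ) * V1 lam (d / (2 - lam)) ε κ (z 0) (z 1) t -
          (pc ε (z 0 - κ * z 1 ^ 2) + (d / (2 - lam) : ℝ) * z 1 ^ 2)) •
            (!₂[(1 : ℂ), 0] : C2) := by
      ext i
      fin_cases i
      · have e2 : (d / (2 - lam) : ℝ) = κ + a / (2 - lam) := by
          rw [P.eq_d]
          field_simp
        rw [e2]
        simp [expA, vv, G, pc]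
        ring
      · have e3 : ((Real.exp t : ℝ) : ℂ) * V2 (z 1) t = z 1 := by
          unfold V2
          rw [← mul_assoc, ← Complex.ofReal_mul, ← Real.exp_add]
          simp
        have e4 : (expA lam t (vv lam (d / (2 - lam)) ε κ t z) - G lam a κ ε z) 1 = 0 := by
          change ((Real.exp t : ℝ) : ℂ) * V2 (z 1) t - z 1 = 0
          rw [e3, sub_self]
        change (expA lam t (vv lam (d / (2 - lam)) ε κ t z) - G lam a κ ε z) 1 = _
        rw [e4]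
        simp
    rw [e1, norm_smul]
    have e5 : ‖(!₂[(1 : ℂ), 0] : C2)‖ = 1 := by
      rw [EuclideanSpace.norm_eq, Fin.sum_univ_two]
      simp
    rw [e5, mul_one]

end proof

/-- **The bounded support point is not an extreme point.**

For every `lam ∈ [1, 2)` the number `a₀ = max {a > 0 : lam x² + y² - a x y² ≥ 0 for x, y ≥ 0,
x² + y² ≤ 1}` exists, and there is `κ > 0` such that all maps
`(z₁ + a₀ / (2 - lam) z₂² + ε (z₁ - κ z₂²)³, z₂)` with `|ε| ≤ 1 / 1000` have `A`-parametric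
representation; in particular `F` (`ε = 0`) has, and `F` is not an extreme point of
`S_A^0(𝔹²)`. -/
theorem result (lam : ℝ) (h1 : 1 ≤ lam) (h2 : lam < 2) : ∃ a₀ κ : ℝ,
    IsGreatest {a : ℝ | 0 < a ∧ ∀ x y : ℝ, 0 ≤ x → 0 ≤ y → x ^ 2 + y ^ 2 ≤ 1 →
      0 ≤ lam * x ^ 2 + y ^ 2 - a * x * y ^ 2} a₀ ∧ 0 < κ ∧
    (∀ ε : ℝ, |ε| ≤ 1 / 1000 → G lam a₀ κ ε ∈ ParamRep lam) ∧
    F lam a₀ ∈ ParamRep lam ∧ ¬ IsExtreme (ParamRep lam) (F lam a₀) := by
  obtain ⟨x, a, κ, d, P⟩ := Pool.Agent.V1173.Ext.exists_par lam h1 h2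
  have hG : ∀ ε : ℝ, |ε| ≤ 1 / 1000 → G lam a κ ε ∈ ParamRep lam := fun ε hε => mem_paramRep P hε
  have hF0 : G lam a κ 0 = F lam a := by
    funext z
    ext i
    fin_cases i
    · simp [G, F]
    · simp [G, F]
  refine ⟨a, κ, P.isGreatest, P.κ_pos, hG, ?_, ?_⟩
  · rw [← hF0]
    exact hG 0 (by norm_num)
  · intro hext
    have hp := hG (1 / 1000) (by norm_num)
    have hm := hG (-(1 / 1000)) (by norm_num)
    have hz : (!₂[(1 / 2 : ℂ), 0] : C2) ∈ ball (0 : C2) 1 := by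
      rw [ball_iff]
      change ‖(1 / 2 : ℂ)‖ ^ 2 + ‖(0 : ℂ)‖ ^ 2 < 1
      norm_num
    have h3 := (hext _ hp _ hm (1 / 2) (by norm_num) (by norm_num) (by
      intro z _
      ext i
      fin_cases i
      · simp [G, F]
        ring
      · simp [G, F]
        ring) _ hz).1
    have h4 := congrArg (fun w : C2 => w 0) h3
    change (1 / 2 : ℂ) + ((a / (2 - lam) : ℝ) : ℂ) * (0 : ℂ) ^ 2 + ((1 / 1000 : ℝ) : ℂ) *
      ((1 / 2 : ℂ) - (κ : ℂ) * (0 : ℂ) ^ 2) ^ 3 =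
      (1 / 2 : ℂ) + ((a / (2 - lam) : ℝ) : ℂ) * (0 : ℂ) ^ 2 at h4
    have h5 : ((1 / 1000 : ℝ) : ℂ) * ((1 / 2 : ℂ) - (κ : ℂ) * (0 : ℂ) ^ 2) ^ 3 = 0 := by
      linear_combination h4
    norm_num at h5

end Pool.Agent.Results.MP_2eb075_an.NotExtreme
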